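import Pool.Agent.R460.GH.Conv

/-!
# Schinzel's Goldbach-type hypothesis for `F₁ = x + a`, `G = x + b`: the asymptotic formula
# in the residue classes of EVERY modulus `q ≤ x ^ (2 / 3 - ρ)`

For two linear polynomials `F₁ = x + a` and `G = x + b` the formula of the hypothesis predicts
`Q₁(N) ~ 𝔖(N) N / log² N`, where `𝔖(N)` is the singular series of the even number `N + a - b`. We prove this
asymptotic formula, also in all windows of length at least `N / (log N)^A`, for all but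
`x / (q (log x)^A)` of the admissible `N ≤ x` in every residue class modulo every `q ≤ x ^ (2 / 3 - ρ)` for
which `gcd(N + a - b, q)` is at most a power of `log x`.

The theorem on Goldbach pairs behind it is project GH of helper460 (`R460/GH`).
-/

set_option autoImplicit false

namespace Pool.Agent.Results.MP_0bf1d2_nt.AsymptoticEveryModulus

open Finset
open Pool.Agent.H560R3.GB (sing)

/-- `F₁(n) = n + a` and `N - G(n) = N - (n + b)` are positive primes. -/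
def BothPrime (a b : ℤ) (N n : ℕ) : Prop :=
  ((n : ℤ) + a).toNat.Prime ∧ ((N : ℤ) - ((n : ℤ) + b)).toNat.Prime

instance (a b : ℤ) (N n : ℕ) : Decidable (BothPrime a b N n) := by
  unfold BothPrime
  infer_instance

/-- The number of the integers `y₁ < n ≤ y₂` for which `F₁(n)` and `N - G(n)` are positive primes. -/
def count (a b : ℤ) (N y₁ y₂ : ℕ) : ℕ := ((Ioc y₁ y₂).filter (fun n => BothPrime a b N n)).card

/-- `Q₁(N)`: the number of the positive integers `n` for which `F₁(n)` and `N - G(n)` are positive primes. -/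
noncomputable def Q₁ (a b : ℤ) (N : ℕ) : ℕ := {n : ℕ | 0 < n ∧ BothPrime a b N n}.ncard

/-- the singular series of `N + a - b` -/
noncomputable def S (a b : ℤ) (N : ℕ) : ℝ := sing ((N : ℤ) + a - b).toNat

/-- `Q₁(N)` is the predicted number up to the factor `1 ± ε`, and the same is true in all windows
`(y₁, y₂]` of length at least `N / (log N)^A`. -/
def Good (ε : ℝ) (A : ℕ) (a b : ℤ) (N : ℕ) : Prop :=
  |(Q₁ a b N : ℝ) - S a b N * (N / Real.log N ^ 2)| ≤ ε * (S a b N * (N / Real.log N ^ 2)) ∧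
  ∀ y₁ y₂ : ℕ, y₁ < y₂ → y₂ ≤ N → (N : ℝ) / Real.log N ^ A ≤ (y₂ : ℝ) - y₁ →
    |(count a b N y₁ y₂ : ℝ) - S a b N * (((y₂ : ℝ) - y₁) / Real.log N ^ 2)| ≤
      ε * (S a b N * (((y₂ : ℝ) - y₁) / Real.log N ^ 2))

/-- The positive integers `N ≤ x`, `N ≡ c (mod q)`, which are admissible (`N + a - b` is even) and not good. -/
def exceptional (ε : ℝ) (A : ℕ) (a b : ℤ) (x q : ℕ) (c : ℤ) : Set ℕ :=
  {N : ℕ | 0 < N ∧ N ≤ x ∧ (N : ℤ) ≡ c [ZMOD q] ∧ (2 : ℤ) ∣ (N : ℤ) + a - b ∧ ¬ Good ε A a b N}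

lemma ev_log (C : ℝ) : ∃ n₀ : ℕ, ∀ n : ℕ, n₀ ≤ n → C ≤ Real.log n := by
  have h := (Real.tendsto_log_atTop.comp tendsto_natCast_atTop_atTop).eventually_ge_atTop C
  obtain ⟨n₀, h0⟩ := Filter.eventually_atTop.1 h
  exact ⟨n₀, fun n hn => h0 n hn⟩

lemma ev_pow (A : ℕ) (C : ℝ) : ∃ n₀ : ℕ, ∀ n : ℕ, n₀ ≤ n →
    C * Real.log n ^ A ≤ (n : ℝ) ^ (1 / 3 : ℝ) := by
  have h1 := isLittleO_log_rpow_rpow_atTop (s := (1 / 3 : ℝ)) (A : ℝ) (by norm_num)
  have h2 := h1.bound (c := 1 / (|C| + 1)) (by positivity)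
  have h3 := (tendsto_natCast_atTop_atTop (R := ℝ)).eventually h2
  obtain ⟨n₀, h0⟩ := Filter.eventually_atTop.1 h3
  refine ⟨n₀ + 1, fun n hn => ?_⟩
  have h4 := h0 n (by omega)
  have hn0 : (0 : ℝ) ≤ n := Nat.cast_nonneg n
  have hl : 0 ≤ Real.log n := Real.log_natCast_nonneg n
  rw [Real.norm_of_nonneg (by positivity), Real.norm_of_nonneg (by positivity), Real.rpow_natCast] at h4
  have h5 : C * Real.log n ^ A ≤ (|C| + 1) * Real.log n ^ A := by
    apply mul_le_mul_of_nonneg_right _ (by positivity)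
    linarith [le_abs_self C]
  refine h5.trans ?_
  calc (|C| + 1) * Real.log n ^ A ≤ (|C| + 1) * (1 / (|C| + 1) * (n : ℝ) ^ (1 / 3 : ℝ)) :=
        mul_le_mul_of_nonneg_left h4 (by positivity)
    _ = (n : ℝ) ^ (1 / 3 : ℝ) := by
        field_simp

lemma count_le_Q (a b : ℤ) (N y₁ y₂ : ℕ) : count a b N y₁ y₂ ≤ Q₁ a b N := by
  unfold count Q₁
  rw [← Set.ncard_coe_finset]
  apply Set.ncard_le_ncard
  · intro n hn
    rw [mem_coe, mem_filter, mem_Ioc] at hn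
    exact ⟨by omega, hn.2⟩
  · apply Set.Finite.subset (Set.finite_Iic (N + b.natAbs))
    rintro n ⟨_, _, h2⟩
    rw [Set.mem_Iic]
    have := h2.pos
    omega

lemma Q_le_count (a b : ℤ) (N : ℕ) : Q₁ a b N ≤ count a b N 0 N + b.natAbs := by
  unfold count Q₁
  have h1 : {n : ℕ | 0 < n ∧ BothPrime a b N n} ⊆
      ((((Ioc 0 N).filter (fun n => BothPrime a b N n)) ∪ Ioc N (N + b.natAbs) : Finset ℕ) : Set ℕ) := by
    rintro n ⟨h0, h1, h2⟩
    rw [mem_coe, mem_union, mem_filter, mem_Ioc, mem_Ioc]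
    have := h2.pos
    rcases Nat.lt_or_ge N n with h | h
    · right; omega
    · left; exact ⟨⟨h0, h⟩, h1, h2⟩
  refine (Set.ncard_le_ncard h1 (finite_toSet _)).trans ?_
  rw [Set.ncard_coe_finset]
  refine (card_union_le _ _).trans ?_
  rw [Nat.card_Ioc]
  omega

/-- the windows are moved by `a` -/
lemma window (a b : ℤ) (N y₁ y₂ : ℕ) (h12 : y₁ < y₂) (hy : y₂ ≤ N) (hN : a.natAbs + b.natAbs ≤ N) :
    ∃ P₁ P₂ : ℕ, P₂ ≤ ((N : ℤ) + a - b).toNat ∧
      (y₂ : ℤ) - y₁ - 2 * (a.natAbs + b.natAbs) ≤ (P₂ : ℤ) - P₁ ∧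
      (P₂ : ℤ) - P₁ ≤ (y₂ : ℤ) - y₁ + 2 * (a.natAbs + b.natAbs) ∧
      Pool.Agent.W93.PG.cnt ((N : ℤ) + a - b).toNat P₁ P₂ = count a b N y₁ y₂ := by
  refine ⟨((y₁ : ℤ) + a).toNat, (min ((y₂ : ℤ) + a) ((N : ℤ) + a - b)).toNat, ?_, ?_, ?_, ?_⟩
  · exact Int.toNat_le_toNat (min_le_right _ _)
  · rcases le_total ((y₂ : ℤ) + a) ((N : ℤ) + a - b) with h | h
    · rw [min_eq_left h]; omega
    · rw [min_eq_right h]; omega
  · rcases le_total ((y₂ : ℤ) + a) ((N : ℤ) + a - b) with h | h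
    · rw [min_eq_left h]; omega
    · rw [min_eq_right h]; omega
  · unfold Pool.Agent.W93.PG.cnt count
    apply le_antisymm
    · apply card_le_card_of_injOn (fun p : ℕ => ((p : ℤ) - a).toNat)
      · intro p hp
        rw [mem_coe, mem_filter, mem_Ioc] at hp
        obtain ⟨⟨h1, h2⟩, h3, h4⟩ := hp
        have h4' := h4.pos
        have h5 : (p : ℤ) ≤ (y₂ : ℤ) + a ∨ (p : ℤ) = 0 := by
          rcases le_total ((y₂ : ℤ) + a) ((N : ℤ) + a - b) with h | h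
          · rw [min_eq_left h] at h2; omega
          · rw [min_eq_right h] at h2; omega
        have h6 := h3.pos
        have h7 : (p : ℤ) ≤ (y₂ : ℤ) + a := by omega
        obtain ⟨t, ht⟩ : ∃ t : ℕ, t = ((p : ℤ) - a).toNat := ⟨_, rfl⟩
        change ((p : ℤ) - a).toNat ∈ ((Ioc y₁ y₂).filter (fun n => BothPrime a b N n) : Set ℕ)
        rw [mem_coe, mem_filter, mem_Ioc]
        unfold BothPrime
        refine ⟨⟨by omega, by omega⟩, ?_, ?_⟩
        · have e : (((((p : ℤ) - a).toNat : ℕ) : ℤ) + a).toNat = p := by omega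
          rw [e]; exact h3
        · have e : ((N : ℤ) - (((((p : ℤ) - a).toNat : ℕ) : ℤ) + b)).toNat = ((N : ℤ) + a - b).toNat - p := by
            omega
          rw [e]; exact h4
      · intro p hp p' hp' h
        rw [mem_coe, mem_filter, mem_Ioc] at hp hp'
        simp only at h
        omega
    · apply card_le_card_of_injOn (fun n : ℕ => ((n : ℤ) + a).toNat)
      · intro n hn
        rw [mem_coe, mem_filter, mem_Ioc] at hn
        obtain ⟨⟨h1, h2⟩, h3, h4⟩ := hn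
        have h3' := h3.pos
        have h4' := h4.pos
        change ((n : ℤ) + a).toNat ∈ ((Ioc (((y₁ : ℤ) + a).toNat)
          ((min ((y₂ : ℤ) + a) ((N : ℤ) + a - b)).toNat)).filter
            (fun p => p.Prime ∧ (((N : ℤ) + a - b).toNat - p).Prime) : Set ℕ)
        rw [mem_coe, mem_filter, mem_Ioc]
        refine ⟨⟨by omega, ?_⟩, h3, ?_⟩
        · apply Int.toNat_le_toNat
          apply le_min
          · omega
          · omega
        · have e : ((N : ℤ) + a - b).toNat - ((n : ℤ) + a).toNat = ((N : ℤ) - ((n : ℤ) + b)).toNat := by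
            omega
          rw [e]; exact h4
      · intro n hn n' hn' h
        rw [mem_coe, mem_filter, mem_Ioc] at hn hn'
        have h1 := hn.2.1.pos
        have h2 := hn'.2.1.pos
        simp only at h
        omega

lemma abs_combine {c s R R0 δ : ℝ} (hs : 0 ≤ s) (hR0 : 0 ≤ R0) (hδ : 0 < δ) (hδ8 : δ ≤ 1 / 8)
    (h1 : |c - s * R| ≤ δ * (s * R)) (h2 : |R - R0| ≤ 3 * δ * R0) :
    |c - s * R0| ≤ 5 * δ * (s * R0) := by
  rw [abs_le] at h1 h2 ⊢
  have e1 : R ≤ (1 + 3 * δ) * R0 := by linarith [h2.2]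
  have e2 : s * R ≤ s * ((1 + 3 * δ) * R0) := mul_le_mul_of_nonneg_left e1 hs
  have e3 : s * ((1 - 3 * δ) * R0) ≤ s * R := mul_le_mul_of_nonneg_left (by linarith [h2.1]) hs
  have e4 : 0 ≤ s * R0 := mul_nonneg hs hR0
  have e5 : δ * (s * R) ≤ δ * (s * ((1 + 3 * δ) * R0)) := mul_le_mul_of_nonneg_left e2 hδ.le
  have e6 : δ * (s * ((1 + 3 * δ) * R0)) ≤ 11 / 8 * δ * (s * R0) := by
    have : δ * (s * ((1 + 3 * δ) * R0)) = (1 + 3 * δ) * (δ * (s * R0)) := by ring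
    rw [this]
    have h7 : 0 ≤ δ * (s * R0) := mul_nonneg hδ.le e4
    nlinarith
  have e7 : s * ((1 + 3 * δ) * R0) = s * R0 + 3 * (δ * (s * R0)) := by ring
  have e8 : s * ((1 - 3 * δ) * R0) = s * R0 - 3 * (δ * (s * R0)) := by ring
  have e9 : 0 ≤ δ * (s * R0) := mul_nonneg hδ.le e4
  constructor
  · nlinarith [h1.1]
  · nlinarith [h1.2]

lemma ratio_close {D D' l k δ : ℝ} (hD : 0 < D) (hl : 1 ≤ l) (hδ : 0 < δ) (hδ8 : δ ≤ 1 / 8)
    (h1 : |D' - D| ≤ δ * D) (h2 : |k - l| ≤ δ / 4) :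
    |D' / k ^ 2 - D / l ^ 2| ≤ 3 * δ * (D / l ^ 2) := by
  rw [abs_le] at h1 h2
  have hk : 0 < k := by linarith [h2.1]
  have hl2 : 0 < l ^ 2 := by positivity
  have hk2 : 0 < k ^ 2 := by positivity
  have hll : l ≤ l ^ 2 := by nlinarith
  have hδl : δ * l ≤ δ * l ^ 2 := mul_le_mul_of_nonneg_left hll hδ.le
  have hδ1 : δ * 1 ≤ δ * l ^ 2 := mul_le_mul_of_nonneg_left (by linarith) hδ.le
  have hδδ : δ * δ ≤ δ * (1 / 8) := mul_le_mul_of_nonneg_left hδ8 hδ.le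
  have a1 : k ^ 2 ≤ (1 + δ) * l ^ 2 := by
    have h9 : k ^ 2 ≤ (l + δ / 4) ^ 2 := pow_le_pow_left₀ hk.le (by linarith [h2.2]) 2
    have h10 : (l + δ / 4) ^ 2 = l ^ 2 + δ * l / 2 + δ * δ / 16 := by ring
    linarith
  have a2 : (1 - δ) * l ^ 2 ≤ k ^ 2 := by
    have h9 : (l - δ / 4) ^ 2 ≤ k ^ 2 := pow_le_pow_left₀ (by linarith) (by linarith [h2.1]) 2
    have h10 : (l - δ / 4) ^ 2 = l ^ 2 - δ * l / 2 + δ * δ / 16 := by ring
    have h11 : 0 ≤ δ * δ := mul_nonneg hδ.le hδ.le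
    linarith
  have hR : 0 < D / l ^ 2 := by positivity
  have b1 : D' / k ^ 2 ≤ (1 + 3 * δ) * (D / l ^ 2) := by
    rw [div_le_iff₀ hk2]
    have c1 : D' ≤ (1 + δ) * D := by linarith [h1.2]
    have c2 : (1 + δ) * D ≤ (1 + 3 * δ) * (1 - δ) * D := by
      apply mul_le_mul_of_nonneg_right _ hD.le
      nlinarith
    have c3 : (1 + 3 * δ) * (D / l ^ 2) * ((1 - δ) * l ^ 2) ≤ (1 + 3 * δ) * (D / l ^ 2) * k ^ 2 :=
      mul_le_mul_of_nonneg_left a2 (by positivity)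
    have c4 : (1 + 3 * δ) * (D / l ^ 2) * ((1 - δ) * l ^ 2) = (1 + 3 * δ) * (1 - δ) * D := by
      field_simp
    linarith
  have b2 : (1 - 3 * δ) * (D / l ^ 2) ≤ D' / k ^ 2 := by
    rw [le_div_iff₀ hk2]
    have c1 : (1 - δ) * D ≤ D' := by linarith [h1.1]
    have c2 : (1 - 3 * δ) * (1 + δ) * D ≤ (1 - δ) * D := by
      apply mul_le_mul_of_nonneg_right _ hD.le
      nlinarith
    have c3 : (1 - 3 * δ) * (D / l ^ 2) * k ^ 2 ≤ (1 - 3 * δ) * (D / l ^ 2) * ((1 + δ) * l ^ 2) := by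
      apply mul_le_mul_of_nonneg_left a1
      apply mul_nonneg _ hR.le
      linarith
    have c4 : (1 - 3 * δ) * (D / l ^ 2) * ((1 + δ) * l ^ 2) = (1 - 3 * δ) * (1 + δ) * D := by
      field_simp
    linarith
  rw [abs_le]
  constructor <;> linarith

lemma log_close (E N m : ℕ) (δ : ℝ) (hδ : 0 < δ) (hδ8 : δ ≤ 1 / 8) (hN : 8 * ((E : ℝ) + 1) ≤ δ * N)
    (h1 : m ≤ N + E) (h2 : N ≤ m + E) : |Real.log m - Real.log N| ≤ δ / 4 := by
  have hE0 : (0 : ℝ) ≤ E := Nat.cast_nonneg E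
  have hNpos : (0 : ℝ) < N := by
    by_contra hcon
    have : (N : ℝ) ≤ 0 := not_lt.1 hcon
    nlinarith
  have h1' : (m : ℝ) ≤ N + E := by exact_mod_cast h1
  have h2' : (N : ℝ) ≤ m + E := by exact_mod_cast h2
  have hEN : (E : ℝ) ≤ δ / 8 * N := by linarith
  have hmpos : (0 : ℝ) < m := by nlinarith
  rw [abs_le]
  constructor
  · -- log N - log m = log (N / m) ≤ N / m - 1 ≤ E / m ≤ δ / 4
    have e1 : Real.log N - Real.log m = Real.log ((N : ℝ) / m) := (Real.log_div hNpos.ne' hmpos.ne').symm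
    have e2 : Real.log ((N : ℝ) / m) ≤ (N : ℝ) / m - 1 := Real.log_le_sub_one_of_pos (by positivity)
    have e3 : (N : ℝ) / m - 1 ≤ δ / 4 := by
      rw [sub_le_iff_le_add, div_le_iff₀ hmpos]
      nlinarith
    linarith
  · have e1 : Real.log m - Real.log N = Real.log ((m : ℝ) / N) := (Real.log_div hmpos.ne' hNpos.ne').symm
    have e2 : Real.log ((m : ℝ) / N) ≤ (m : ℝ) / N - 1 := Real.log_le_sub_one_of_pos (by positivity)
    have e3 : (m : ℝ) / N - 1 ≤ δ / 4 := by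
      rw [sub_le_iff_le_add, div_le_iff₀ hNpos]
      nlinarith
    linarith

lemma good_of (ε : ℝ) (hε : 0 < ε) (A : ℕ) (a b : ℤ) : ∃ δ : ℝ, 0 < δ ∧ ∃ N₁ : ℕ,
    a.natAbs + b.natAbs ≤ N₁ ∧ ∀ N : ℕ, N₁ ≤ N →
      Pool.Agent.W93.PG.WinP δ (A + 1) ((N : ℤ) + a - b).toNat → Good ε A a b N := by
  obtain ⟨E, hE⟩ : ∃ E : ℕ, E = a.natAbs + b.natAbs := ⟨_, rfl⟩
  obtain ⟨δ, hδdef⟩ : ∃ δ : ℝ, δ = min ε 1 / 8 := ⟨_, rfl⟩
  have hδ : 0 < δ := by rw [hδdef]; positivity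
  have hδ8 : δ ≤ 1 / 8 := by
    rw [hδdef]
    have := min_le_right ε 1
    linarith
  have hδε : 8 * δ ≤ ε := by
    rw [hδdef]
    have := min_le_left ε 1
    linarith
  obtain ⟨n1, h1⟩ := ev_log (2 ^ (A + 2) + 1)
  obtain ⟨n2, h2⟩ := ev_pow (A + 2) (8 * (E + 1) / δ)
  refine ⟨δ, hδ, n1 + n2 + E + 1, by omega, fun N hN hW => ?_⟩
  have a1 := h1 N (by omega)
  have a2 := h2 N (by omega)
  obtain ⟨m, hm⟩ : ∃ m, m = ((N : ℤ) + a - b).toNat := ⟨_, rfl⟩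
  rw [← hm] at hW
  have hm1 : m ≤ N + E := by omega
  have hm2 : N ≤ m + E := by omega
  have hE0 : (0 : ℝ) ≤ E := Nat.cast_nonneg E
  have hN1 : (1 : ℝ) ≤ N := by exact_mod_cast (by omega : 1 ≤ N)
  have hNpos : (0 : ℝ) < N := by linarith
  obtain ⟨l, hl⟩ : ∃ l, l = Real.log (N : ℝ) := ⟨_, rfl⟩
  rw [← hl] at a1 a2
  have p2 : (1 : ℝ) ≤ 2 ^ (A + 2) := one_le_pow₀ (by norm_num)
  have hl2 : 2 ≤ l := by linarith
  have hl1 : 1 ≤ l := by linarith
  have hlpos : 0 < l := by linarith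
  have a3 : 8 * ((E : ℝ) + 1) / δ * l ^ (A + 2) ≤ N := by
    refine a2.trans ?_
    calc (N : ℝ) ^ (1 / 3 : ℝ) ≤ (N : ℝ) ^ (1 : ℝ) :=
          Real.rpow_le_rpow_of_exponent_le hN1 (by norm_num)
      _ = N := Real.rpow_one _
  have hC0 : 0 ≤ 8 * ((E : ℝ) + 1) / δ := by positivity
  have a4 : 8 * ((E : ℝ) + 1) / δ ≤ N := by
    refine le_trans ?_ a3
    exact le_mul_of_one_le_right hC0 (one_le_pow₀ hl1)
  have a5 : 8 * ((E : ℝ) + 1) ≤ δ * N := by
    rw [div_le_iff₀ hδ] at a4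
    linarith
  have hlc := log_close E N m δ hδ hδ8 a5 hm1 hm2
  obtain ⟨k, hk⟩ : ∃ k, k = Real.log (m : ℝ) := ⟨_, rfl⟩
  rw [← hl, ← hk] at hlc
  have hlc' := abs_le.1 hlc
  have hkl : l ≤ 2 * k := by linarith [hlc'.1]
  have hkpos : 0 < k := by linarith
  have hkb : 2 ^ (A + 2) ≤ k := by linarith [hlc'.1]
  have hm1' : (m : ℝ) ≤ N + E := by exact_mod_cast hm1
  have hmN : (m : ℝ) ≤ 2 * N := by nlinarith
  have hs1 : 1 ≤ S a b N := by
    unfold S
    exact Pool.Agent.R460.GS.one_le_sing _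
  have hs0 : 0 ≤ S a b N := by linarith
  -- windows
  have key : ∀ y₁ y₂ : ℕ, y₁ < y₂ → y₂ ≤ N → (N : ℝ) / l ^ A ≤ (y₂ : ℝ) - y₁ →
      |(count a b N y₁ y₂ : ℝ) - S a b N * (((y₂ : ℝ) - y₁) / l ^ 2)| ≤
        5 * δ * (S a b N * (((y₂ : ℝ) - y₁) / l ^ 2)) := by
    intro y₁ y₂ h12 hy2 hlen
    obtain ⟨P₁, P₂, c1, c2, c2u, c3⟩ := window a b N y₁ y₂ h12 hy2 (by omega)
    rw [← hm] at c1 c3
    have hEz : (E : ℤ) = a.natAbs + b.natAbs := by rw [hE]; push_cast; rfl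
    rw [← hEz] at c2 c2u
    have c2' : (y₂ : ℝ) - y₁ - 2 * E ≤ (P₂ : ℝ) - P₁ := by exact_mod_cast c2
    have c2u' : (P₂ : ℝ) - P₁ ≤ (y₂ : ℝ) - y₁ + 2 * E := by exact_mod_cast c2u
    obtain ⟨D, hD⟩ : ∃ D, D = (y₂ : ℝ) - y₁ := ⟨_, rfl⟩
    rw [← hD] at c2' c2u' hlen ⊢
    have hED : 8 * ((E : ℝ) + 1) ≤ δ * D := by
      have f1 : 8 * ((E : ℝ) + 1) / δ ≤ N / l ^ A := by
        rw [le_div_iff₀ (by positivity)]
        refine le_trans ?_ a3
        apply mul_le_mul_of_nonneg_left _ hC0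
        exact pow_le_pow_right₀ hl1 (by omega)
      have f2 := f1.trans hlen
      rw [div_le_iff₀ hδ] at f2
      linarith
    have hDpos : 0 < D := by
      have : 0 < (N : ℝ) / l ^ A := by positivity
      linarith
    have hDD : |((P₂ : ℝ) - P₁) - D| ≤ δ * D := by
      rw [abs_le]
      constructor <;> linarith
    have hPP : 7 / 8 * D ≤ (P₂ : ℝ) - P₁ := by
      have := (abs_le.1 hDD).1
      nlinarith
    have hP12 : P₁ < P₂ := by
      have : (P₁ : ℝ) < P₂ := by linarith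
      exact_mod_cast this
    have hwin := hW P₁ P₂ hP12 c1 (by
      rw [← hk]
      refine le_trans ?_ hPP
      rw [div_le_iff₀ (by positivity)]
      have f1 : (N : ℝ) ≤ D * l ^ A := by
        rwa [div_le_iff₀ (by positivity)] at hlen
      have f2 : l ^ A ≤ 2 ^ A * k ^ A := by
        rw [← mul_pow]
        exact pow_le_pow_left₀ hlpos.le hkl A
      have f3 : D * l ^ A ≤ D * (2 ^ A * k ^ A) := mul_le_mul_of_nonneg_left f2 hDpos.le
      have f5 : 0 ≤ D * k ^ A := by positivity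
      have f6 : (2 : ℝ) ^ (A + 2) = 4 * 2 ^ A := by ring
      have f7 : D * k ^ A * 2 ^ (A + 2) ≤ D * k ^ A * k := mul_le_mul_of_nonneg_left hkb f5
      have f8 : (0 : ℝ) ≤ D * k ^ A * 2 ^ A := by positivity
      calc (m : ℝ) ≤ 2 * (D * (2 ^ A * k ^ A)) := by linarith
        _ ≤ 7 / 8 * (D * k ^ A * k) := by
            rw [f6] at f7
            nlinarith
        _ = 7 / 8 * D * k ^ (A + 1) := by ring)
    rw [← hk, c3, mul_div_assoc] at hwin
    have hS : S a b N = sing m := by unfold S; rw [hm]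
    rw [← hS] at hwin
    exact abs_combine hs0 (by positivity) hδ hδ8 hwin (ratio_close hDpos hl1 hδ hδ8 hDD hlc)
  have hR0 : 0 ≤ S a b N * ((N : ℝ) / l ^ 2) := by positivity
  refine ⟨?_, ?_⟩
  · rw [← hl]
    have h3 := key 0 N (by exact_mod_cast hNpos) le_rfl (by
      rw [Nat.cast_zero, sub_zero]
      exact div_le_self hNpos.le (one_le_pow₀ hl1))
    rw [Nat.cast_zero, sub_zero] at h3
    have q1 : (count a b N 0 N : ℝ) ≤ Q₁ a b N := by exact_mod_cast count_le_Q a b N 0 N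
    have q2 : (Q₁ a b N : ℝ) ≤ count a b N 0 N + E := by
      have : Q₁ a b N ≤ count a b N 0 N + E := (Q_le_count a b N).trans (by omega)
      exact_mod_cast this
    have q3 : (E : ℝ) ≤ δ * (S a b N * ((N : ℝ) / l ^ 2)) := by
      have f1 : 8 * ((E : ℝ) + 1) / δ ≤ N / l ^ 2 := by
        rw [le_div_iff₀ (by positivity)]
        refine le_trans ?_ a3
        apply mul_le_mul_of_nonneg_left _ hC0
        exact pow_le_pow_right₀ hl1 (by omega)
      rw [div_le_iff₀ hδ] at f1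
      have f2 : (N : ℝ) / l ^ 2 ≤ S a b N * ((N : ℝ) / l ^ 2) :=
        le_mul_of_one_le_left (by positivity) hs1
      have f3 : δ * ((N : ℝ) / l ^ 2) ≤ δ * (S a b N * ((N : ℝ) / l ^ 2)) :=
        mul_le_mul_of_nonneg_left f2 hδ.le
      linarith
    have q4 : 8 * δ * (S a b N * ((N : ℝ) / l ^ 2)) ≤ ε * (S a b N * ((N : ℝ) / l ^ 2)) :=
      mul_le_mul_of_nonneg_right hδε hR0
    have q5 : 0 ≤ δ * (S a b N * ((N : ℝ) / l ^ 2)) := mul_nonneg hδ.le hR0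
    rw [abs_le] at h3 ⊢
    constructor
    · linarith [h3.1]
    · linarith [h3.2]
  · rw [← hl]
    intro y₁ y₂ h12 hy2 hlen
    refine (key y₁ y₂ h12 hy2 hlen).trans ?_
    have h12' : (y₁ : ℝ) < y₂ := by exact_mod_cast h12
    have hpos : 0 ≤ S a b N * (((y₂ : ℝ) - y₁) / l ^ 2) := by
      apply mul_nonneg hs0
      apply div_nonneg (by linarith) (by positivity)
    apply mul_le_mul_of_nonneg_right _ hpos
    linarith

/-- **Linear systems in the residue classes of every modulus.** Let `a, b` be integers, `F₁ = x + a`,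
`G = x + b`. For all `ε, ρ > 0`, `A`, `T` and all sufficiently large `x`: for EVERY modulus
`1 ≤ q ≤ x ^ (2 / 3 - ρ)` and every integer `c` with `gcd(c + a - b, q) ≤ (log x)^T`, all but at most
`x / (q (log x)^A)` of the admissible `N ≤ x` with `N ≡ c (mod q)` are good: the predicted asymptotic
formula holds for `Q₁(N)` and in all windows with a relative error at most `ε`. -/
theorem result (a b : ℤ) (ε : ℝ) (hε : 0 < ε) (ρ : ℝ) (hρ : 0 < ρ) (A T : ℕ) :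
    ∃ x₀ : ℕ, ∀ x : ℕ, x₀ ≤ x → ∀ q : ℕ, 1 ≤ q → (q : ℝ) ≤ (x : ℝ) ^ (2 / 3 - ρ) → ∀ c : ℤ,
      (Int.gcd (c + a - b) q : ℝ) ≤ Real.log x ^ T →
        ((exceptional ε A a b x q c).ncard : ℝ) ≤ (x : ℝ) / (q * Real.log x ^ A) := by
  classical
  obtain ⟨δ, hδ, N₁, hN1E, h1⟩ := good_of ε hε A a b
  obtain ⟨X₀, h0⟩ := Pool.Agent.R460.GH.class_asymp (Pool.Agent.W93.PG.WinP δ (A + 1)) δ hδ (A + 1)
    ⟨0, fun n _ _ h => h⟩ ρ hρ (A + 1) T
  obtain ⟨E, hE⟩ : ∃ E : ℕ, E = a.natAbs + b.natAbs := ⟨_, rfl⟩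
  obtain ⟨n1, e1⟩ := ev_log 4
  obtain ⟨n2, e2⟩ := ev_pow A (2 * (N₁ + E + 1))
  refine ⟨⌈X₀⌉₊ + n1 + n2 + E + N₁ + 4, fun x hx q hq1 hq c hc => ?_⟩
  have a1 := e1 x (by omega)
  have a2 := e2 x (by omega)
  have hx1 : (1 : ℝ) ≤ x := by exact_mod_cast (by omega : 1 ≤ x)
  have hx0 : (0 : ℝ) < x := by linarith
  have hq0 : (0 : ℝ) < q := by exact_mod_cast hq1
  obtain ⟨X, hX⟩ : ∃ X : ℕ, X = x + E := ⟨_, rfl⟩
  have hxX : (x : ℝ) ≤ X := by exact_mod_cast (by omega : x ≤ X)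
  have hX2 : (X : ℝ) ≤ 2 * x := by exact_mod_cast (by omega : X ≤ 2 * x)
  have hXX : X₀ ≤ X := by
    have h2 : (⌈X₀⌉₊ : ℝ) ≤ X := by exact_mod_cast (by omega : ⌈X₀⌉₊ ≤ X)
    exact (Nat.le_ceil X₀).trans h2
  have hlX : Real.log x ≤ Real.log X := Real.log_le_log hx0 hxX
  have hexp : (0 : ℝ) ≤ 2 / 3 - ρ := by
    by_contra hcon
    rw [not_le] at hcon
    have h2 : (1 : ℝ) < x := by exact_mod_cast (by omega : 1 < x)
    have : (x : ℝ) ^ (2 / 3 - ρ) < 1 := Real.rpow_lt_one_of_one_lt_of_neg h2 hcon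
    have hq1' : (1 : ℝ) ≤ q := by exact_mod_cast hq1
    linarith
  obtain ⟨hf, h2⟩ := h0 X hXX q hq1 (hq.trans (Real.rpow_le_rpow hx0.le hxX hexp)) (c + a - b)
    (hc.trans (pow_le_pow_left₀ (by linarith) hlX T))
  obtain ⟨B, hB⟩ : ∃ B : Set ℕ, B = {n : ℕ | 0 < n ∧ (n : ℝ) ≤ X ∧ 2 ∣ n ∧ (n : ℤ) ≡ c + a - b [ZMOD q] ∧
      ¬ Pool.Agent.W93.PG.WinP δ (A + 1) n} := ⟨_, rfl⟩
  rw [← hB] at hf h2
  -- the small exceptions and the large ones
  have hfin : (exceptional ε A a b x q c) ⊆ ((Icc 1 N₁ : Finset ℕ) : Set ℕ) ∪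
      ((fun m : ℕ => ((m : ℤ) - a + b).toNat) '' B) := by
    rintro N ⟨k1, k2, k3, k4, k5⟩
    rcases Nat.lt_or_ge N₁ N with h | h
    · right
      refine ⟨((N : ℤ) + a - b).toNat, ?_, ?_⟩
      · rw [hB]
        have hnn : (((((N : ℤ) + a - b).toNat : ℕ)) : ℤ) = (N : ℤ) + a - b := by omega
        refine ⟨by omega, ?_, ?_, ?_, ?_⟩
        · exact_mod_cast (by omega : ((N : ℤ) + a - b).toNat ≤ X)
        · have : (2 : ℤ) ∣ (((((N : ℤ) + a - b).toNat : ℕ)) : ℤ) := by rw [hnn]; exact k4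
          exact_mod_cast this
        · rw [hnn]
          exact (k3.add_right a).sub_right b
        · exact fun hW => k5 (h1 N (by omega) hW)
      · simp only
        omega
    · left
      rw [mem_coe, mem_Icc]
      exact ⟨k1, h⟩
  have h3 : (exceptional ε A a b x q c).ncard ≤ N₁ + B.ncard := by
    refine (Set.ncard_le_ncard hfin ?_).trans ((Set.ncard_union_le _ _).trans ?_)
    · exact (finite_toSet _).union (hf.image _)
    · apply add_le_add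
      · rw [Set.ncard_coe_finset, Nat.card_Icc]; omega
      · exact Set.ncard_image_le hf
  have h4 : ((exceptional ε A a b x q c).ncard : ℝ) ≤ N₁ + (X : ℝ) / (q * Real.log X ^ (A + 1)) := by
    have : ((exceptional ε A a b x q c).ncard : ℝ) ≤ N₁ + (B.ncard : ℝ) := by
      exact_mod_cast h3
    linarith
  refine h4.trans ?_
  obtain ⟨l, hl⟩ : ∃ l, l = Real.log (x : ℝ) := ⟨_, rfl⟩
  rw [← hl] at a1 a2 hlX ⊢
  have hl0 : 0 < l := by linarith
  -- first part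
  have h5 : (N₁ : ℝ) ≤ 1 / 2 * ((x : ℝ) / (q * l ^ A)) := by
    have g1 : (q : ℝ) * x ^ (1 / 3 : ℝ) ≤ x := by
      calc (q : ℝ) * x ^ (1 / 3 : ℝ) ≤ (x : ℝ) ^ (2 / 3 - ρ) * x ^ (1 / 3 : ℝ) := by gcongr
        _ = (x : ℝ) ^ (2 / 3 - ρ + 1 / 3) := by rw [← Real.rpow_add hx0]
        _ ≤ (x : ℝ) ^ (1 : ℝ) := Real.rpow_le_rpow_of_exponent_le hx1 (by linarith)
        _ = x := Real.rpow_one _
    have g2 : (q : ℝ) * (2 * (N₁ + E + 1) * l ^ A) ≤ x := by
      refine le_trans ?_ g1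
      exact mul_le_mul_of_nonneg_left a2 hq0.le
    rw [← mul_div_assoc, le_div_iff₀ (by positivity)]
    have g3 : (0 : ℝ) ≤ q * l ^ A * (E + 1) := by positivity
    nlinarith
  have h6 : (X : ℝ) / (q * Real.log X ^ (A + 1)) ≤ 1 / 2 * ((x : ℝ) / (q * l ^ A)) := by
    have g1 : (X : ℝ) / (q * Real.log X ^ (A + 1)) ≤ (2 * x) / (q * l ^ (A + 1)) := by
      gcongr
    refine g1.trans ?_
    rw [← mul_div_assoc, div_le_div_iff₀ (by positivity) (by positivity)]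
    have g2 : 0 ≤ (x : ℝ) * (q * l ^ A) := by positivity
    calc 2 * (x : ℝ) * (q * l ^ A) = 1 / 2 * (x * (q * l ^ A)) * 4 := by ring
      _ ≤ 1 / 2 * (x * (q * l ^ A)) * l := by gcongr
      _ = 1 / 2 * x * (q * l ^ (A + 1)) := by ring
  linarith

end Pool.Agent.Results.MP_0bf1d2_nt.AsymptoticEveryModulus
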