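import Mathlib
import Pool.Agent.R463.Sch
import Pool.Agent.R463.EX10

set_option autoImplicit false

/-!
# The exact local structure of the almost prime values of `F_1 (n), ..., F_g (n), N - G (n)`, for every `N`
-/

namespace Pool.Agent.Results.MP_0bf1d2_nt.ExactBlocks

open Polynomial Finset Filter
open Pool.Agent.R463.PS

/-- The polynomials of the problem: `F_1, ..., F_g` irreducible, nonconstant, with positive leading
coefficients, no two of them translates of each other (`F_i ≠ F_j (x + t)` for `i ≠ j`, `t = 0, 1, 2, ...`), and `G`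
nonconstant with positive leading coefficient. -/
structure Data {g : ℕ} (F : Fin g → ℤ[X]) (G : ℤ[X]) : Prop where
  irr : ∀ i, Irreducible (F i)
  deg : ∀ i, 1 ≤ (F i).natDegree
  lead : ∀ i, 0 < (F i).leadingCoeff
  degG : 1 ≤ G.natDegree
  leadG : 0 < G.leadingCoeff
  tr : ∀ i j, i ≠ j → ∀ t : ℕ, F i ≠ (F j).comp (X + C (t : ℤ))

/-- `N` is admissible: `N - G` is irreducible and `F_1 ... F_g (N - G)` has no fixed prime divisor -/
def Admissible {g : ℕ} (F : Fin g → ℤ[X]) (G : ℤ[X]) (N : ℕ) : Prop :=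
  Irreducible (C (N : ℤ) - G) ∧
    ∀ p : ℕ, p.Prime → ∃ n : ℕ, ¬ (p : ℤ) ∣ (N : ℤ) - G.eval (n : ℤ) ∧ ∀ i, ¬ (p : ℤ) ∣ (F i).eval (n : ℤ)

/-- neither `N - G n` nor one of the `F_i n` has a prime factor `p ≤ N ^ (1 / r)` -/
def Good {g : ℕ} (F : Fin g → ℤ[X]) (G : ℤ[X]) (N r n : ℕ) : Prop :=
  ∀ p : ℕ, p.Prime → (p : ℝ) ≤ (N : ℝ) ^ (1 / (r : ℝ)) →
    ¬ (p : ℤ) ∣ (N : ℤ) - G.eval (n : ℤ) ∧ ∀ i, ¬ (p : ℤ) ∣ (F i).eval (n : ℤ)

/-- `omega_N (p)` of the problem -/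
noncomputable def om {g : ℕ} (F : Fin g → ℤ[X]) (G : ℤ[X]) (N p : ℕ) : ℕ :=
  ((range p).filter (fun n : ℕ => (p : ℤ) ∣ (N : ℤ) - G.eval (n : ℤ) ∨
    ∃ i, (p : ℤ) ∣ (F i).eval (n : ℤ))).card

/-- the density: the product of `1 - omega_N(p) / p` over the primes `p ≤ N ^ (1 / r)` -/
noncomputable def V {g : ℕ} (F : Fin g → ℤ[X]) (G : ℤ[X]) (N r : ℕ) : ℝ :=
  ∏ p ∈ (Icc 1 ⌊(N : ℝ) ^ (1 / (r : ℝ))⌋₊).filter Nat.Prime, (1 - (om F G N p : ℝ) / p)

open Classical in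
/-- the number of the residues `n` modulo `p` for which `p` divides `N - G m` or an `F_i m` for an `m = n + h`,
`h ∈ H` -/
noncomputable def omH {g : ℕ} (F : Fin g → ℤ[X]) (G : ℤ[X]) (N : ℕ) (H : Finset ℕ) (p : ℕ) : ℕ :=
  ((range p).filter (fun n : ℕ => ∃ h ∈ H, (p : ℤ) ∣ (N : ℤ) - G.eval ((n + h : ℕ) : ℤ) ∨
    ∃ i, (p : ℤ) ∣ (F i).eval ((n + h : ℕ) : ℤ))).card

/-- the density of the pattern: the product of `1 - omH(p) / p` over the primes `p ≤ N ^ (1 / r)` -/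
noncomputable def VH {g : ℕ} (F : Fin g → ℤ[X]) (G : ℤ[X]) (N : ℕ) (H : Finset ℕ) (r : ℕ) : ℝ :=
  ∏ p ∈ (Icc 1 ⌊(N : ℝ) ^ (1 / (r : ℝ))⌋₊).filter Nat.Prime, (1 - (omH F G N H p : ℝ) / p)

open Classical in
/-- the number of the `n` in `(Z, Z + Y]` for which the good integers in `[n, n + L]` are exactly the
integers `n + h` with `h ∈ H` -/
noncomputable def Blocks {g : ℕ} (F : Fin g → ℤ[X]) (G : ℤ[X]) (N : ℕ) (H : Finset ℕ) (L r Z Y : ℕ) : ℕ :=
  ((Ioc Z (Z + Y)).filter (fun n => ∀ h ≤ L, Good F G N r (n + h) ↔ h ∈ H)).card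

lemma good_iff {g : ℕ} (F : Fin g → ℤ[X]) (G : ℤ[X]) (N r n : ℕ) :
    Good F G N r n ↔ Sifted (sch F G N) N r n := by
  rw [sch_sift]
  rfl

lemma V_eq {g : ℕ} (F : Fin g → ℤ[X]) (G : ℤ[X]) (N r : ℕ) :
    V F G N r = Pool.Agent.R463.PS.V (sch F G N) N r := by
  unfold V Pool.Agent.R463.PS.V
  apply prod_congr rfl
  intro p _
  rw [sch_om]
  rfl

lemma data {g : ℕ} {F : Fin g → ℤ[X]} {G : ℤ[X]} (S : Data F G) : SchData F G :=
  ⟨S.irr, S.deg, S.lead, S.degG, S.leadG, fun i j hij t _ => S.tr i j hij t⟩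

lemma adm {g : ℕ} {F : Fin g → ℤ[X]} {G : ℤ[X]} {N : ℕ} (h : Admissible F G N) : AdmN F G N := ⟨h.1, h.2⟩

lemma VH_eq {g : ℕ} (F : Fin g → ℤ[X]) (G : ℤ[X]) (N : ℕ) (H : Finset ℕ) (r : ℕ) :
    VH F G N H r = Pool.Agent.R463.PS.VH (sch F G N) H N r := by
  classical
  unfold VH Pool.Agent.R463.PS.VH
  apply prod_congr rfl
  intro p _
  have : omH F G N H p = Pool.Agent.R463.PS.omH (sch F G N) H p := by
    unfold omH Pool.Agent.R463.PS.omH sch
    congr 1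
    ext m
    simp only [mem_filter]
    refine and_congr_right fun _ => exists_congr fun h => and_congr_right fun _ => ?_
    rw [Fin.exists_fin_succ]
    simp only [Fin.cons_zero, Fin.cons_succ, eval_sub, eval_C]
  rw [this]

lemma Blocks_eq {g : ℕ} (F : Fin g → ℤ[X]) (G : ℤ[X]) (N : ℕ) (H : Finset ℕ) (L r Z Y : ℕ) :
    Blocks F G N H L r Z Y = exS (sch F G N) H L N r Z Y := by
  classical
  unfold Blocks exS
  congr 1
  ext n
  simp only [mem_filter, good_iff]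

/-- **The exact local structure of the `n` with `F_1 (n), ..., F_g (n), N - G (n)` almost prime, for every
admissible `N`.** For `θ, ε > 0`, `K`, `x₀` there is `r₀` such that for all `r ≥ r₀` and all large admissible
`N`, for ALL intervals `(Z, Z + Y]` with `Y ≥ N ^ θ`, ALL sets `H` of at most `K` natural numbers with `0 ∈ H`
and all `L ≥ max H` with `L V ≤ x₀`: the number of the `n` in the interval for which the good integers in
`[n, n + L]` are exactly the `n + h`, `h ∈ H`, is `Y VH exp (- L V)`, up to the factor `1 ± ε`. -/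
theorem result (g : ℕ) (hg : 0 < g) (F : Fin g → ℤ[X]) (G : ℤ[X]) (S : Data F G) (θ : ℝ) (hθ : 0 < θ)
    (K : ℕ) (x₀ ε : ℝ) (hε : 0 < ε) :
    ∃ r₀ : ℕ, ∀ r : ℕ, r₀ ≤ r → ∀ᶠ N : ℕ in atTop, Admissible F G N →
      ∀ Z Y : ℕ, (N : ℝ) ^ θ ≤ Y → ∀ H : Finset ℕ, H.card ≤ K → 0 ∈ H → ∀ L : ℕ,
        (∀ h ∈ H, h ≤ L) → L * V F G N r ≤ x₀ →
        |(Blocks F G N H L r Z Y : ℝ) - Y * VH F G N H r * Real.exp (-(L * V F G N r))| ≤
          ε * (Y * VH F G N H r * Real.exp (-(L * V F G N r))) := by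
  have hd : (0 : ℝ) < G.natDegree := by exact_mod_cast (by have := S.degG; omega : 0 < G.natDegree)
  obtain ⟨r₀, h⟩ := blocks' (g + 1) (Ds F G) K 2 (1 / (2 * (G.natDegree : ℝ))) θ x₀ ε (by norm_num)
    (by positivity) hθ hε
  refine ⟨max r₀ 2, fun r hr => ?_⟩
  obtain ⟨C, hC, hV⟩ := sch_V (data S) hg r ((le_max_right _ _).trans hr)
  filter_upwards [h r ((le_max_left _ _).trans hr) C, hV, sch_system (data S)]
    with N h1 h2 h3 hadm Z Y hY H hH h0 L hL hx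
  rw [V_eq] at hx ⊢
  rw [Blocks_eq, VH_eq]
  exact h1 _ (h3 (adm hadm)) (h2 N (adm hadm)) Z Y hY H hH h0 L hL hx

end Pool.Agent.Results.MP_0bf1d2_nt.ExactBlocks
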