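import Mathlib
import Pool.Agent.R463.Sch

set_option autoImplicit false

/-!
# Schinzel's problem with `F_1 (n) = n`: prime `n`, almost prime other values

For EVERY large admissible `N`: the number of the PRIMES `n` in a window for which `N - G (n)` and the
`F_i (n)` have no prime factor `≤ N ^ (1 / r)`, and the Poisson law of the almost prime arguments after them.
-/

namespace Pool.Agent.Results.MP_0bf1d2_nt.LawAfterPrimes

open Polynomial Finset Filter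
open Pool.Agent.R463.PS

/-- The polynomials of the problem: `F_1, ..., F_g` irreducible, nonconstant, with positive leading
coefficients, no two of them translates of each other (`F_i ≠ F_j (x + t)` for `i ≠ j`, `t = 0, 1, 2, ...`), and `G`
nonconstant with positive leading coefficient. -/
structure Data {g : ℕ} (F : Fin g → ℤ[X]) (G : ℤ[X]) : Prop where
  irr : ∀ i, Irreducible (F i)
  deg : ∀ i, 1 ≤ (F i).natDegree
  lead : ∀ i, 0 < (F i).leadingCoeff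
  degG : 1 ≤ G.natDegree
  leadG : 0 < G.leadingCoeff
  tr : ∀ i j, i ≠ j → ∀ t : ℕ, F i ≠ (F j).comp (X + C (t : ℤ))

/-- `N` is admissible: `N - G` is irreducible and `F_1 ... F_g (N - G)` has no fixed prime divisor -/
def Admissible {g : ℕ} (F : Fin g → ℤ[X]) (G : ℤ[X]) (N : ℕ) : Prop :=
  Irreducible (C (N : ℤ) - G) ∧
    ∀ p : ℕ, p.Prime → ∃ n : ℕ, ¬ (p : ℤ) ∣ (N : ℤ) - G.eval (n : ℤ) ∧ ∀ i, ¬ (p : ℤ) ∣ (F i).eval (n : ℤ)

/-- neither `N - G n` nor one of the `F_i n` has a prime factor `p ≤ N ^ (1 / r)` -/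
def Good {g : ℕ} (F : Fin g → ℤ[X]) (G : ℤ[X]) (N r n : ℕ) : Prop :=
  ∀ p : ℕ, p.Prime → (p : ℝ) ≤ (N : ℝ) ^ (1 / (r : ℝ)) →
    ¬ (p : ℤ) ∣ (N : ℤ) - G.eval (n : ℤ) ∧ ∀ i, ¬ (p : ℤ) ∣ (F i).eval (n : ℤ)

/-- `omega_N (p)` of the problem -/
noncomputable def om {g : ℕ} (F : Fin g → ℤ[X]) (G : ℤ[X]) (N p : ℕ) : ℕ :=
  ((range p).filter (fun n : ℕ => (p : ℤ) ∣ (N : ℤ) - G.eval (n : ℤ) ∨
    ∃ i, (p : ℤ) ∣ (F i).eval (n : ℤ))).card

/-- the density: the product of `1 - omega_N(p) / p` over the primes `p ≤ N ^ (1 / r)` -/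
noncomputable def V {g : ℕ} (F : Fin g → ℤ[X]) (G : ℤ[X]) (N r : ℕ) : ℝ :=
  ∏ p ∈ (Icc 1 ⌊(N : ℝ) ^ (1 / (r : ℝ))⌋₊).filter Nat.Prime, (1 - (om F G N p : ℝ) / p)

/-- the product of `(1 - omega_N(p) / p) / (1 - 1 / p)` over the primes `p ≤ N ^ (1 / r)` -/
noncomputable def W {g : ℕ} (F : Fin g → ℤ[X]) (G : ℤ[X]) (N r : ℕ) : ℝ :=
  ∏ p ∈ (Icc 1 ⌊(N : ℝ) ^ (1 / (r : ℝ))⌋₊).filter Nat.Prime, (1 - (om F G N p : ℝ) / p) / (1 - 1 / (p : ℝ))

open Classical in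
/-- the good PRIMES `n` in `(A, A + L]` -/
noncomputable def P {g : ℕ} (F : Fin g → ℤ[X]) (G : ℤ[X]) (N r A L : ℕ) : Finset ℕ :=
  (Ioc A (A + L)).filter (fun n => n.Prime ∧ Good F G N r n)

open Classical in
/-- the number of the good integers in `(n, n + T]` -/
noncomputable def Next {g : ℕ} (F : Fin g → ℤ[X]) (G : ℤ[X]) (N r T n : ℕ) : ℕ :=
  ((Ioc n (n + T)).filter (fun m => Good F G N r m)).card

lemma good_iff {g : ℕ} (F : Fin g → ℤ[X]) (G : ℤ[X]) (N r n : ℕ) :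
    Good F G N r n ↔ Sifted (sch F G N) N r n := by
  rw [sch_sift]
  rfl

lemma V_eq {g : ℕ} (F : Fin g → ℤ[X]) (G : ℤ[X]) (N r : ℕ) :
    V F G N r = Pool.Agent.R463.PS.V (sch F G N) N r := by
  unfold V Pool.Agent.R463.PS.V
  apply prod_congr rfl
  intro p _
  rw [sch_om]
  rfl

lemma data {g : ℕ} {F : Fin g → ℤ[X]} {G : ℤ[X]} (S : Data F G) : SchData F G :=
  ⟨S.irr, S.deg, S.lead, S.degG, S.leadG, fun i j hij t _ => S.tr i j hij t⟩

lemma adm {g : ℕ} {F : Fin g → ℤ[X]} {G : ℤ[X]} {N : ℕ} (h : Admissible F G N) : AdmN F G N := ⟨h.1, h.2⟩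

lemma W_eq {g : ℕ} (F : Fin g → ℤ[X]) (G : ℤ[X]) (N r : ℕ) :
    W F G N r = Pool.Agent.R463.PS.W (sch F G N) N r := by
  unfold W Pool.Agent.R463.PS.W
  apply prod_congr rfl
  intro p _
  rw [sch_om]
  rfl

lemma P_eq {g : ℕ} (F : Fin g → ℤ[X]) (G : ℤ[X]) (N r A L : ℕ) :
    P F G N r A L = Pr 1 0 (sch F G N) N r A L := by
  classical
  unfold P Pr
  apply filter_congr
  intro n _
  rw [good_iff, one_mul, add_zero]

lemma Next_eq {g : ℕ} (F : Fin g → ℤ[X]) (G : ℤ[X]) (N r T n : ℕ) :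
    Next F G N r T n = Pool.Agent.R463.PS.Next (sch F G N) N r T n := by
  classical
  unfold Next Pool.Agent.R463.PS.Next
  congr 1
  apply filter_congr
  intro m _
  rw [good_iff]

/-- **Schinzel's problem with a prime argument.** Let one of the `F_i` be `x`. For `θ, δ > 0`, `x₀` and
`0 < ε ≤ 1` there is `r₀` such that for all `r ≥ r₀` and ALL large admissible `N`, all `x ≥ N ^ θ` and all
windows `(A, A + L]` in `(0, x]` with `L ≥ δ x`:
(1) the number of the good PRIMES `n` in the window is `(1 + η) L W / log x`, `|η| ≤ ε`;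
(2) for `T V ≤ x₀` the number of the good integers in `(n, n + T]`, `n` running over the primes in (1), has
the Poisson law of mean `T V`, up to `ε`. -/
theorem result (g : ℕ) (F : Fin g → ℤ[X]) (G : ℤ[X]) (S : Data F G) (hx : ∃ i, F i = X) (θ δ : ℝ)
    (hθ : 0 < θ) (hδ : 0 < δ) (hδ1 : δ ≤ 1) (x₀ ε : ℝ) (hε : 0 < ε) (hε1 : ε ≤ 1) :
    ∃ r₀ : ℕ, 2 ≤ r₀ ∧ ∀ r : ℕ, r₀ ≤ r → ∀ᶠ N : ℕ in atTop, Admissible F G N →
      ∀ x : ℕ, (N : ℝ) ^ θ ≤ x → ∀ A L : ℕ, δ * x ≤ L → A + L ≤ x →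
        |((P F G N r A L).card : ℝ) * Real.log x - L * W F G N r| ≤ ε * (L * W F G N r) ∧
        ∀ T : ℕ, T * V F G N r ≤ x₀ → ∀ B : Finset ℕ,
          |(((P F G N r A L).filter (fun n => Next F G N r T n ∈ B)).card : ℝ) -
            (P F G N r A L).card *
              ∑ j ∈ B, Real.exp (-(T * V F G N r)) * (T * V F G N r) ^ j / j.factorial| ≤
            ε * (P F G N r A L).card := by
  have hd : (0 : ℝ) < G.natDegree := by exact_mod_cast (by have := S.degG; omega : 0 < G.natDegree)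
  obtain ⟨i₀, hi₀⟩ := hx
  have hg : 0 < g := Fin.pos i₀
  obtain ⟨r₀, hr₀, h⟩ := after 1 (g + 1) (Ds F G) squarefree_one 2 (1 / (2 * (G.natDegree : ℝ))) θ δ
    (by norm_num) (by positivity) hθ hδ hδ1 x₀ ε hε hε1
  refine ⟨r₀, hr₀, fun r hr => ?_⟩
  obtain ⟨C, hC, hV⟩ := sch_V (data S) hg r (hr₀.trans hr)
  filter_upwards [h r hr C, hV, sch_system (data S)] with N h1 h2 h3 hadm x hx A L hL hAL
  obtain ⟨h4, h5⟩ := h1 _ 0 (h3 (adm hadm)) (Nat.coprime_one_left 0)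
    (fun p n hp hpa => absurd (Nat.dvd_one.1 hpa) hp.one_lt.ne')
    ⟨Fin.succ i₀, fun n => by unfold sch; rw [Fin.cons_succ, hi₀]; simp⟩ (h2 N (adm hadm))
    (by rw [Nat.cast_zero]; positivity) x hx A L hL hAL
  rw [P_eq, W_eq, V_eq]
  refine ⟨h4, fun T hT B => ?_⟩
  have h6 := h5 T hT B
  simp only [Next_eq]
  exact h6

end Pool.Agent.Results.MP_0bf1d2_nt.LawAfterPrimes
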