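import Pool.Agent.R460.GS.Asm

/-!
# Schinzel's Goldbach-type hypothesis for `F₁ = x + a`, `G = x + b`: lower bounds of the predicted order
# in the residue classes of EVERY modulus `q ≤ x ^ (7 / 10 - ρ)`

For two linear polynomials `F₁ = x + a` and `G = x + b` the formula of the hypothesis predicts
`Q₁(N) ~ 𝔖(N) N / log² N`, where `𝔖(N)` is the singular series of the even number `N + a - b`. We prove the
lower bound with the factor `1 / 21`, in all windows of length at least `N / (log N)^A`, for all but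
`x / (q (log x)^A)` of the admissible `N ≤ x` in every residue class modulo every `q ≤ x ^ (7 / 10 - ρ)` for
which `gcd(N + a - b, q)` is at most a power of `log x`.

The theorem on Goldbach pairs behind it is project GS of helper460, helper453, helper461 and helper462
(`R460/GS`, `R453/GS`, `R461/GS`, `R462/GS`).
-/

set_option autoImplicit false

namespace Pool.Agent.Results.MP_0bf1d2_nt.LinearSystemsEveryModulus

open Finset
open Pool.Agent.H560R3.GB (sing)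

/-- `F₁(n) = n + a` and `N - G(n) = N - (n + b)` are positive primes. -/
def BothPrime (a b : ℤ) (N n : ℕ) : Prop :=
  ((n : ℤ) + a).toNat.Prime ∧ ((N : ℤ) - ((n : ℤ) + b)).toNat.Prime

instance (a b : ℤ) (N n : ℕ) : Decidable (BothPrime a b N n) := by
  unfold BothPrime
  infer_instance

/-- The number of the integers `y₁ < n ≤ y₂` for which `F₁(n)` and `N - G(n)` are positive primes. -/
def count (a b : ℤ) (N y₁ y₂ : ℕ) : ℕ := ((Ioc y₁ y₂).filter (fun n => BothPrime a b N n)).card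

/-- `Q₁(N)`: the number of the positive integers `n` for which `F₁(n)` and `N - G(n)` are positive primes. -/
noncomputable def Q₁ (a b : ℤ) (N : ℕ) : ℕ := {n : ℕ | 0 < n ∧ BothPrime a b N n}.ncard

/-- the singular series of `N + a - b` -/
noncomputable def S (a b : ℤ) (N : ℕ) : ℝ := sing ((N : ℤ) + a - b).toNat

/-- `Q₁(N)` is at least `1 / 21` of the predicted number, and the same is true in all windows `(y₁, y₂]`
of length at least `N / (log N)^A`. -/
def Good (A : ℕ) (a b : ℤ) (N : ℕ) : Prop :=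
  1 / 21 * (S a b N * (N / Real.log N ^ 2)) ≤ Q₁ a b N ∧
  ∀ y₁ y₂ : ℕ, y₁ < y₂ → y₂ ≤ N → (N : ℝ) / Real.log N ^ A ≤ (y₂ : ℝ) - y₁ →
    1 / 21 * (S a b N * (((y₂ : ℝ) - y₁) / Real.log N ^ 2)) ≤ count a b N y₁ y₂

/-- The positive integers `N ≤ x`, `N ≡ c (mod q)`, which are admissible (`N + a - b` is even) and not good. -/
def exceptional (A : ℕ) (a b : ℤ) (x q : ℕ) (c : ℤ) : Set ℕ :=
  {N : ℕ | 0 < N ∧ N ≤ x ∧ (N : ℤ) ≡ c [ZMOD q] ∧ (2 : ℤ) ∣ (N : ℤ) + a - b ∧ ¬ Good A a b N}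

lemma ev_log (C : ℝ) : ∃ n₀ : ℕ, ∀ n : ℕ, n₀ ≤ n → C ≤ Real.log n := by
  have h := (Real.tendsto_log_atTop.comp tendsto_natCast_atTop_atTop).eventually_ge_atTop C
  obtain ⟨n₀, h0⟩ := Filter.eventually_atTop.1 h
  exact ⟨n₀, fun n hn => h0 n hn⟩

lemma ev_pow (A : ℕ) (C : ℝ) : ∃ n₀ : ℕ, ∀ n : ℕ, n₀ ≤ n →
    C * Real.log n ^ A ≤ (n : ℝ) ^ (3 / 10 : ℝ) := by
  have h1 := isLittleO_log_rpow_rpow_atTop (s := (3 / 10 : ℝ)) (A : ℝ) (by norm_num)
  have h2 := h1.bound (c := 1 / (|C| + 1)) (by positivity)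
  have h3 := (tendsto_natCast_atTop_atTop (R := ℝ)).eventually h2
  obtain ⟨n₀, h0⟩ := Filter.eventually_atTop.1 h3
  refine ⟨n₀ + 1, fun n hn => ?_⟩
  have h4 := h0 n (by omega)
  have hn0 : (0 : ℝ) ≤ n := Nat.cast_nonneg n
  have hl : 0 ≤ Real.log n := Real.log_natCast_nonneg n
  rw [Real.norm_of_nonneg (by positivity), Real.norm_of_nonneg (by positivity), Real.rpow_natCast] at h4
  have h5 : C * Real.log n ^ A ≤ (|C| + 1) * Real.log n ^ A := by
    apply mul_le_mul_of_nonneg_right _ (by positivity)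
    linarith [le_abs_self C]
  refine h5.trans ?_
  calc (|C| + 1) * Real.log n ^ A ≤ (|C| + 1) * (1 / (|C| + 1) * (n : ℝ) ^ (3 / 10 : ℝ)) :=
        mul_le_mul_of_nonneg_left h4 (by positivity)
    _ = (n : ℝ) ^ (3 / 10 : ℝ) := by
        field_simp

lemma count_le_Q (a b : ℤ) (N y₁ y₂ : ℕ) : count a b N y₁ y₂ ≤ Q₁ a b N := by
  unfold count Q₁
  rw [← Set.ncard_coe_finset]
  apply Set.ncard_le_ncard
  · intro n hn
    rw [mem_coe, mem_filter, mem_Ioc] at hn
    exact ⟨by omega, hn.2⟩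
  · apply Set.Finite.subset (Set.finite_Iic (N + b.natAbs))
    rintro n ⟨_, _, h2⟩
    rw [Set.mem_Iic]
    have := h2.pos
    omega

/-- the windows are moved by `a` -/
lemma window (a b : ℤ) (N y₁ y₂ : ℕ) (h12 : y₁ < y₂) (hy : y₂ ≤ N) (hN : a.natAbs + b.natAbs ≤ N) :
    ∃ P₁ P₂ : ℕ, P₂ ≤ ((N : ℤ) + a - b).toNat ∧
      (y₂ : ℤ) - y₁ - 2 * (a.natAbs + b.natAbs) ≤ (P₂ : ℤ) - P₁ ∧
      Pool.Agent.W93.PG.cnt ((N : ℤ) + a - b).toNat P₁ P₂ ≤ count a b N y₁ y₂ := by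
  refine ⟨((y₁ : ℤ) + a).toNat, (min ((y₂ : ℤ) + a) ((N : ℤ) + a - b)).toNat, ?_, ?_, ?_⟩
  · exact Int.toNat_le_toNat (min_le_right _ _)
  · rcases le_total ((y₂ : ℤ) + a) ((N : ℤ) + a - b) with h | h
    · rw [min_eq_left h]; omega
    · rw [min_eq_right h]; omega
  · unfold Pool.Agent.W93.PG.cnt count
    apply card_le_card_of_injOn (fun p : ℕ => ((p : ℤ) - a).toNat)
    · intro p hp
      rw [mem_coe, mem_filter, mem_Ioc] at hp
      obtain ⟨⟨h1, h2⟩, h3, h4⟩ := hp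
      have h4' := h4.pos
      have h5 : (p : ℤ) ≤ (y₂ : ℤ) + a ∨ (p : ℤ) = 0 := by
        rcases le_total ((y₂ : ℤ) + a) ((N : ℤ) + a - b) with h | h
        · rw [min_eq_left h] at h2; omega
        · rw [min_eq_right h] at h2; omega
      have h6 := h3.pos
      have h7 : (p : ℤ) ≤ (y₂ : ℤ) + a := by omega
      obtain ⟨t, ht⟩ : ∃ t : ℕ, t = ((p : ℤ) - a).toNat := ⟨_, rfl⟩
      change ((p : ℤ) - a).toNat ∈ ((Ioc y₁ y₂).filter (fun n => BothPrime a b N n) : Set ℕ)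
      rw [mem_coe, mem_filter, mem_Ioc]
      unfold BothPrime
      refine ⟨⟨by omega, by omega⟩, ?_, ?_⟩
      · have e : (((((p : ℤ) - a).toNat : ℕ) : ℤ) + a).toNat = p := by omega
        rw [e]; exact h3
      · have e : ((N : ℤ) - (((((p : ℤ) - a).toNat : ℕ) : ℤ) + b)).toNat = ((N : ℤ) + a - b).toNat - p := by
          omega
        rw [e]; exact h4
    · intro p hp p' hp' h
      rw [mem_coe, mem_filter, mem_Ioc] at hp hp'
      simp only at h
      omega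

lemma good_of (A : ℕ) (a b : ℤ) : ∃ N₁ : ℕ, a.natAbs + b.natAbs ≤ N₁ ∧ ∀ N : ℕ, N₁ ≤ N →
    Pool.Agent.R460.GS.WinL (A + 1) ((N : ℤ) + a - b).toNat → Good A a b N := by
  obtain ⟨E, hE⟩ : ∃ E : ℕ, E = a.natAbs + b.natAbs := ⟨_, rfl⟩
  obtain ⟨n1, h1⟩ := ev_log (2 * (2 ^ (A + 2) + 1))
  obtain ⟨n2, h2⟩ := ev_pow A (200 * (E + 1))
  refine ⟨n1 + n2 + 200 * (E + 1), by omega, fun N hN hW => ?_⟩
  have a1 := h1 N (by omega)
  have a2 := h2 N (by omega)
  obtain ⟨m, hm⟩ : ∃ m, m = ((N : ℤ) + a - b).toNat := ⟨_, rfl⟩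
  rw [← hm] at hW
  have hm1 : m ≤ N + E := by omega
  have hm2 : N ≤ m + E := by omega
  have hN200 : 200 * ((E : ℝ) + 1) ≤ N := by
    have : 200 * (E + 1) ≤ N := by omega
    exact_mod_cast this
  have hE0 : (0 : ℝ) ≤ E := Nat.cast_nonneg E
  have hNpos : (0 : ℝ) < N := by nlinarith
  have hm1' : (m : ℝ) ≤ N + E := by exact_mod_cast hm1
  have hm2' : (N : ℝ) ≤ m + E := by exact_mod_cast hm2
  have hmpos : (0 : ℝ) < m := by nlinarith
  obtain ⟨l, hl⟩ : ∃ l, l = Real.log (N : ℝ) := ⟨_, rfl⟩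
  obtain ⟨k, hk⟩ : ∃ k, k = Real.log (m : ℝ) := ⟨_, rfl⟩
  rw [← hl] at a1 a2
  have p2 : (1 : ℝ) ≤ 2 ^ (A + 2) := one_le_pow₀ (by norm_num)
  have hl4 : 4 ≤ l := by linarith
  -- comparison of the logarithms
  have hk1 : k ≤ 1.005 * l := by
    have e1 : k ≤ Real.log ((N : ℝ) * (1 + E / N)) := by
      rw [hk]
      apply Real.log_le_log hmpos
      rw [mul_add, mul_one, mul_div_cancel₀ _ hNpos.ne']
      exact hm1'
    rw [Real.log_mul hNpos.ne' (by positivity), ← hl] at e1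
    have e2 : Real.log (1 + E / N) ≤ E / N := by
      have := Real.log_le_sub_one_of_pos (x := 1 + (E : ℝ) / N) (by positivity)
      linarith
    have e3 : (E : ℝ) / N ≤ 0.005 := by
      rw [div_le_iff₀ hNpos]
      linarith
    linarith
  have hk2 : l ≤ 2 * k := by
    have e1 : Real.log ((N : ℝ) / 2) ≤ k := by
      rw [hk]
      apply Real.log_le_log (by positivity)
      linarith
    rw [Real.log_div hNpos.ne' (by norm_num), ← hl] at e1
    have := Real.log_two_lt_d9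
    linarith
  have hkpos : 0 < k := by linarith
  have hlpos : 0 < l := by linarith
  have hkb : 2 ^ (A + 2) + 1 ≤ k := by linarith
  -- windows
  have key : ∀ y₁ y₂ : ℕ, y₁ < y₂ → y₂ ≤ N → (N : ℝ) / l ^ A ≤ (y₂ : ℝ) - y₁ →
      1 / 21 * (S a b N * (((y₂ : ℝ) - y₁) / l ^ 2)) ≤ count a b N y₁ y₂ := by
    intro y₁ y₂ h12 hy2 hlen
    obtain ⟨P₁, P₂, c1, c2, c3⟩ := window a b N y₁ y₂ h12 hy2 (by omega)
    rw [← hm] at c1 c3
    have hEz : (E : ℤ) = a.natAbs + b.natAbs := by rw [hE]; push_cast; rfl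
    rw [← hEz] at c2
    have c2' : (y₂ : ℝ) - y₁ - 2 * E ≤ (P₂ : ℝ) - P₁ := by exact_mod_cast c2
    obtain ⟨D, hD⟩ : ∃ D, D = (y₂ : ℝ) - y₁ := ⟨_, rfl⟩
    rw [← hD] at c2' hlen ⊢
    have hE100 : 2 * (E : ℝ) ≤ 0.01 * D := by
      have f1 : 200 * ((E : ℝ) + 1) ≤ N / l ^ A := by
        rw [le_div_iff₀ (by positivity)]
        refine a2.trans ?_
        calc (N : ℝ) ^ (3 / 10 : ℝ) ≤ (N : ℝ) ^ (1 : ℝ) := by
              apply Real.rpow_le_rpow_of_exponent_le _ (by norm_num)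
              linarith
          _ = N := Real.rpow_one _
      linarith
    have hDpos : 0 < D := by
      have : 0 < (N : ℝ) / l ^ A := by positivity
      linarith
    have hPP : 0.99 * D ≤ (P₂ : ℝ) - P₁ := by linarith
    have hP12 : P₁ < P₂ := by
      have : (P₁ : ℝ) < P₂ := by linarith
      exact_mod_cast this
    have hwin := hW P₁ P₂ hP12 c1 (by
      rw [← hk]
      refine le_trans ?_ hPP
      rw [div_le_iff₀ (by positivity)]
      have f1 : (N : ℝ) ≤ D * l ^ A := by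
        rwa [div_le_iff₀ (by positivity)] at hlen
      have f2 : l ^ A ≤ 2 ^ A * k ^ A := by
        rw [← mul_pow]
        exact pow_le_pow_left₀ hlpos.le hk2 A
      have f3 : D * l ^ A ≤ D * (2 ^ A * k ^ A) := mul_le_mul_of_nonneg_left f2 hDpos.le
      have f4 : (m : ℝ) ≤ 2 * N := by linarith
      have f5 : 0 ≤ D * k ^ A := by positivity
      have f6 : (2 : ℝ) ^ (A + 2) = 4 * 2 ^ A := by ring
      have f7 : D * k ^ A * (2 ^ (A + 2) + 1) ≤ D * k ^ A * k := mul_le_mul_of_nonneg_left hkb f5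
      have f8 : (0 : ℝ) ≤ D * k ^ A * 2 ^ A := by positivity
      calc (m : ℝ) ≤ 2 * (D * (2 ^ A * k ^ A)) := by linarith
        _ ≤ 0.99 * (D * k ^ A * k) := by
            rw [f6] at f7
            nlinarith
        _ = 0.99 * D * k ^ (A + 1) := by ring)
    rw [← hk] at hwin
    have c3' : (Pool.Agent.W93.PG.cnt m P₁ P₂ : ℝ) ≤ count a b N y₁ y₂ := by exact_mod_cast c3
    refine le_trans ?_ (hwin.trans c3')
    have hS : S a b N = sing m := by unfold S; rw [hm]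
    rw [hS]
    have hs := Pool.Agent.R460.GS.one_le_sing m
    have g1 : k ^ 2 ≤ 1.02 * l ^ 2 := by
      have : k ^ 2 ≤ (1.005 * l) ^ 2 := pow_le_pow_left₀ hkpos.le hk1 2
      nlinarith [sq_nonneg l]
    have g2 : D / l ^ 2 ≤ 1.02 * (D / k ^ 2) := by
      rw [div_le_iff₀ (by positivity)]
      have : 1.02 * (D / k ^ 2) * l ^ 2 = D * (1.02 * l ^ 2) / k ^ 2 := by ring
      rw [this, le_div_iff₀ (by positivity)]
      exact mul_le_mul_of_nonneg_left g1 hDpos.le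
    have g3 : 0 ≤ D / k ^ 2 := by positivity
    calc 1 / 21 * (sing m * (D / l ^ 2)) ≤ 1 / 21 * (sing m * (1.02 * (D / k ^ 2))) := by gcongr
      _ ≤ 1 / 20 * (sing m * (0.99 * (D / k ^ 2))) := by
          have : 0 ≤ sing m * (D / k ^ 2) := by positivity
          nlinarith
      _ = 1 / 20 * (sing m * (0.99 * D) / k ^ 2) := by ring
      _ ≤ 1 / 20 * (sing m * ((P₂ : ℝ) - P₁) / k ^ 2) := by gcongr
  refine ⟨?_, ?_⟩
  · rw [← hl]
    have h3 := key 0 N (by
      have : (0 : ℝ) < N := hNpos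
      exact_mod_cast this) le_rfl (by
      rw [Nat.cast_zero, sub_zero]
      exact div_le_self hNpos.le (one_le_pow₀ (by linarith)))
    rw [Nat.cast_zero, sub_zero] at h3
    refine h3.trans ?_
    exact_mod_cast count_le_Q a b N 0 N
  · rw [← hl]
    exact key

/-- **Linear systems in the residue classes of every modulus.** Let `a, b` be integers, `F₁ = x + a`,
`G = x + b`. For all `ρ > 0`, `A`, `T` and all sufficiently large `x`: for EVERY modulus
`1 ≤ q ≤ x ^ (7 / 10 - ρ)` and every integer `c` with `gcd(c + a - b, q) ≤ (log x)^T`, all but at most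
`x / (q (log x)^A)` of the admissible `N ≤ x` with `N ≡ c (mod q)` are good. -/
theorem result (a b : ℤ) (ρ : ℝ) (hρ : 0 < ρ) (A T : ℕ) :
    ∃ x₀ : ℕ, ∀ x : ℕ, x₀ ≤ x → ∀ q : ℕ, 1 ≤ q → (q : ℝ) ≤ (x : ℝ) ^ (7 / 10 - ρ) → ∀ c : ℤ,
      (Int.gcd (c + a - b) q : ℝ) ≤ Real.log x ^ T →
        ((exceptional A a b x q c).ncard : ℝ) ≤ (x : ℝ) / (q * Real.log x ^ A) := by
  classical
  obtain ⟨N₀, h0⟩ := Pool.Agent.R460.GS.gs_all ρ hρ (A + 1) T
  obtain ⟨N₁, hN1E, h1⟩ := good_of A a b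
  obtain ⟨E, hE⟩ : ∃ E : ℕ, E = a.natAbs + b.natAbs := ⟨_, rfl⟩
  obtain ⟨n1, e1⟩ := ev_log 4
  obtain ⟨n2, e2⟩ := ev_pow A (2 * (N₁ + E + 1))
  refine ⟨N₀ + n1 + n2 + E + N₁ + 4, fun x hx q hq1 hq c hc => ?_⟩
  have a1 := e1 x (by omega)
  have a2 := e2 x (by omega)
  have hx1 : (1 : ℝ) ≤ x := by exact_mod_cast (by omega : 1 ≤ x)
  have hx0 : (0 : ℝ) < x := by linarith
  have hq0 : (0 : ℝ) < q := by exact_mod_cast hq1
  have hqz : (q : ℤ) ≠ 0 := by exact_mod_cast (by omega : q ≠ 0)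
  obtain ⟨X, hX⟩ : ∃ X : ℕ, X = x + E := ⟨_, rfl⟩
  have hxX : (x : ℝ) ≤ X := by exact_mod_cast (by omega : x ≤ X)
  have hX2 : (X : ℝ) ≤ 2 * x := by exact_mod_cast (by omega : X ≤ 2 * x)
  have hlX : Real.log x ≤ Real.log X := Real.log_le_log hx0 hxX
  have hexp : (0 : ℝ) ≤ 7 / 10 - ρ := by
    by_contra hcon
    rw [not_le] at hcon
    have h2 : (1 : ℝ) < x := by exact_mod_cast (by omega : 1 < x)
    have : (x : ℝ) ^ (7 / 10 - ρ) < 1 := Real.rpow_lt_one_of_one_lt_of_neg h2 hcon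
    have hq1' : (1 : ℝ) ≤ q := by exact_mod_cast hq1
    linarith
  obtain ⟨c', hc'⟩ : ∃ c' : ℕ, c' = ((c + a - b) % (q : ℤ)).toNat := ⟨_, rfl⟩
  have hmod : ((c' : ℕ) : ℤ) = (c + a - b) % (q : ℤ) := by
    rw [hc']; exact Int.toNat_of_nonneg (Int.emod_nonneg _ hqz)
  have hgcd : Nat.gcd c' q = Int.gcd (c + a - b) q := by
    have h2 : Int.gcd ((c + a - b) % (q : ℤ)) q = Int.gcd (c + a - b) q := Int.gcd_emod _ q
    rw [← h2, ← hmod]
    exact (Int.gcd_natCast_natCast _ _).symm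
  have h2 := h0 X (by omega) q hq1 (hq.trans (Real.rpow_le_rpow hx0.le hxX hexp)) c' (by
    rw [hgcd]
    exact hc.trans (pow_le_pow_left₀ (by linarith) hlX T))
  -- the small exceptions and the large ones
  have hfin : (exceptional A a b x q c) ⊆ ((Icc 1 N₁ : Finset ℕ) : Set ℕ) ∪
      ((fun m : ℕ => ((m : ℤ) - a + b).toNat) ''
        ((Pool.Agent.Y883.T4.badc (Pool.Agent.R460.GS.WinL (A + 1)) X q c' : Finset ℕ) : Set ℕ)) := by
    rintro N ⟨k1, k2, k3, k4, k5⟩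
    rcases Nat.lt_or_ge N₁ N with h | h
    · right
      refine ⟨((N : ℤ) + a - b).toNat, ?_, ?_⟩
      · rw [mem_coe]
        unfold Pool.Agent.Y883.T4.badc
        rw [mem_filter, mem_Icc]
        have hnn : (((((N : ℤ) + a - b).toNat : ℕ)) : ℤ) = (N : ℤ) + a - b := by omega
        refine ⟨⟨by omega, by omega⟩, ?_, ?_, ?_⟩
        · have : (2 : ℤ) ∣ (((((N : ℤ) + a - b).toNat : ℕ)) : ℤ) := by rw [hnn]; exact k4
          exact_mod_cast this
        · have e3 : (((((N : ℤ) + a - b).toNat : ℕ)) : ℤ) % q = ((c' : ℕ) : ℤ) % q := by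
            rw [hnn, hmod, Int.emod_emod_of_dvd _ (dvd_refl _)]
            have : (N : ℤ) + a - b ≡ c + a - b [ZMOD q] := (k3.add_right a).sub_right b
            exact this
          exact_mod_cast e3
        · exact fun hW => k5 (h1 N (by omega) hW)
      · simp only
        omega
    · left
      rw [mem_coe, mem_Icc]
      exact ⟨k1, h⟩
  have h3 : (exceptional A a b x q c).ncard ≤ N₁ +
      (Pool.Agent.Y883.T4.badc (Pool.Agent.R460.GS.WinL (A + 1)) X q c').card := by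
    refine (Set.ncard_le_ncard hfin ?_).trans ((Set.ncard_union_le _ _).trans ?_)
    · exact (finite_toSet _).union ((finite_toSet _).image _)
    · apply add_le_add
      · rw [Set.ncard_coe_finset, Nat.card_Icc]; omega
      · refine (Set.ncard_image_le (finite_toSet _)).trans ?_
        rw [Set.ncard_coe_finset]
  have h4 : ((exceptional A a b x q c).ncard : ℝ) ≤ N₁ + (X : ℝ) / (q * Real.log X ^ (A + 1)) := by
    have : ((exceptional A a b x q c).ncard : ℝ) ≤ N₁ +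
        ((Pool.Agent.Y883.T4.badc (Pool.Agent.R460.GS.WinL (A + 1)) X q c').card : ℝ) := by
      exact_mod_cast h3
    linarith
  refine h4.trans ?_
  obtain ⟨l, hl⟩ : ∃ l, l = Real.log (x : ℝ) := ⟨_, rfl⟩
  rw [← hl] at a1 a2 hlX ⊢
  have hl0 : 0 < l := by linarith
  -- first part
  have h5 : (N₁ : ℝ) ≤ 1 / 2 * ((x : ℝ) / (q * l ^ A)) := by
    have g1 : (q : ℝ) * x ^ (3 / 10 : ℝ) ≤ x := by
      calc (q : ℝ) * x ^ (3 / 10 : ℝ) ≤ (x : ℝ) ^ (7 / 10 - ρ) * x ^ (3 / 10 : ℝ) := by gcongr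
        _ = (x : ℝ) ^ (7 / 10 - ρ + 3 / 10) := by rw [← Real.rpow_add hx0]
        _ ≤ (x : ℝ) ^ (1 : ℝ) := Real.rpow_le_rpow_of_exponent_le hx1 (by linarith)
        _ = x := Real.rpow_one _
    have g2 : (q : ℝ) * (2 * (N₁ + E + 1) * l ^ A) ≤ x := by
      refine le_trans ?_ g1
      exact mul_le_mul_of_nonneg_left a2 hq0.le
    rw [← mul_div_assoc, le_div_iff₀ (by positivity)]
    have g3 : (0 : ℝ) ≤ q * l ^ A * (E + 1) := by positivity
    nlinarith
  have h6 : (X : ℝ) / (q * Real.log X ^ (A + 1)) ≤ 1 / 2 * ((x : ℝ) / (q * l ^ A)) := by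
    have g1 : (X : ℝ) / (q * Real.log X ^ (A + 1)) ≤ (2 * x) / (q * l ^ (A + 1)) := by
      gcongr
    refine g1.trans ?_
    rw [← mul_div_assoc, div_le_div_iff₀ (by positivity) (by positivity)]
    have g2 : 0 ≤ (x : ℝ) * (q * l ^ A) := by positivity
    calc 2 * (x : ℝ) * (q * l ^ A) = 1 / 2 * (x * (q * l ^ A)) * 4 := by ring
      _ ≤ 1 / 2 * (x * (q * l ^ A)) * l := by gcongr
      _ = 1 / 2 * x * (q * l ^ (A + 1)) := by ring
  linarith

end Pool.Agent.Results.MP_0bf1d2_nt.LinearSystemsEveryModulus
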